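import Mathlib
import Pool.Agent.H.MP_35f06d_lc.A

set_option autoImplicit false

namespace Pool.Agent.Results.MP_54b694_lc.Cohen

open Set Filter Function Cardinal Ordinal Topology TopologicalSpace Pool.Agent.H.MP_35f06d_lc
  Pool.Agent.H.MP_a16b96_lc

theorem hh : ∃ h : ℝ → ℝ, Injective h ∧ (∀ᶠ y in residual ℝ, ContinuousAt h y) ∧
    ∀ l, IsMeagre (range fun y => l + h y) := by
  obtain ⟨f, -, f1, f2⟩ := (PerfectSpace.univ_perfect (α := ℝ)).exists_nat_bool_injection
    univ_nonempty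
  obtain ⟨q, hq⟩ := exists_surjective_nat ℚ
  refine ⟨fun y => f fun n => (Ioi (q n : ℝ)).boolIndicator y, f2.comp fun x y h => ?_, ?_,
    fun l => IsMeagre.mono (s := range fun x => l + f x) (range_subset_iff.2 fun _ => ⟨_, rfl⟩) ?_⟩
  · have : ∀ r : ℚ, r < x ↔ r < y := fun r => by
      obtain ⟨n, rfl⟩ := hq r
      exact ((Ioi _).mem_iff_boolIndicator x).trans
        (congrFun h n ▸ ((Ioi _).mem_iff_boolIndicator y).symm)
    exact eq_of_forall_rat_lt_iff_lt this
  · filter_upwards [cm (countable_range fun n => (q n : ℝ))] with y hy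
    refine f1.continuousAt.comp (continuousAt_pi.2 fun n => continuousAt_const.congr
      (f := fun _ => (Ioi (q n : ℝ)).boolIndicator y) ?_)
    rcases lt_or_gt_of_ne (show (q n : ℝ) ≠ y from fun h => hy ⟨n, h⟩) with h | h
    · filter_upwards [Ioi_mem_nhds h] with x hx
      rw [((Ioi _).mem_iff_boolIndicator x).1 hx, ((Ioi _).mem_iff_boolIndicator y).1 h]
    · filter_upwards [Iio_mem_nhds h] with x hx
      rw [((Ioi _).notMem_iff_boolIndicator x).1 (not_lt.2 (le_of_lt hx)),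
        ((Ioi _).notMem_iff_boolIndicator y).1 (not_lt.2 h.le)]
  · have h1 := Continuous.isClosedEmbedding (f := fun x => l + f x) (by fun_prop)
      ((add_right_injective l).comp f2)
    refine (h1.isClosed_range.isNowhereDense_iff.2 (eq_empty_of_forall_notMem
      fun x hx => ?_)).isMeagre
    obtain ⟨ε, e1, e2⟩ := Metric.mem_nhds_iff.1 (mem_interior_iff_mem_nhds.1 hx)
    exact infinite_of_mem_nhds x (Metric.ball_mem_nhds x e1)
      (h1.isEmbedding.isTotallyDisconnected_range.2 inferInstance _ e2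
        (convex_ball x ε).isPreconnected).finite

theorem ku' {h : ℝ → ℝ} (hc : ∀ᶠ y in residual ℝ, ContinuousAt h y) {M : Set ℝ}
    (hM : IsMeagre M) : ∀ᶠ l in residual ℝ, IsMeagre {y | l + h y ∈ M} := by
  obtain ⟨S, s1, s2, s3, s4⟩ := mem_residual_iff.1 hM
  have : ∀ᶠ l in residual ℝ, ∀ U ∈ S, ∀ B ∈ countableBasis ℝ,
      l ∈ ⋃ y ∈ B ∩ {y | ContinuousAt h y}, (· + h y) ⁻¹' U :=
    (eventually_countable_ball s3).2 fun U hU => (eventually_countable_ball
      (countable_countableBasis ℝ)).2 fun B hB => by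
        obtain ⟨y, hy⟩ := (dense_of_mem_residual hc).inter_open_nonempty B
          (isOpen_of_mem_countableBasis hB) (nonempty_of_mem_countableBasis hB)
        exact residual_of_dense_open (isOpen_biUnion fun _ _ => (s1 U hU).preimage (by fun_prop))
          (((s2 U hU).preimage (isOpenMap_add_right (h y))).mono (subset_biUnion_of_mem
            (u := fun y => (· + h y) ⁻¹' U) hy))
  filter_upwards [this] with l hl
  refine mem_of_superset ((eventually_countable_ball s3).2 fun U hU => residual_of_dense_open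
    (isOpen_interior (s := {y | l + h y ∈ U})) ((isBasis_countableBasis ℝ).dense_iff.2
      fun B hB _ => ?_)) fun y hy => s4 fun U hU => interior_subset (s := {y | l + h y ∈ U}) (hy U hU)
  obtain ⟨y, y1, y2⟩ := mem_iUnion₂.1 (hl U hU B hB)
  exact ⟨y, y1.1, mem_interior_iff_mem_nhds.2 ((continuousAt_const.add y1.2).preimage_mem_nhds
    ((s1 U hU).mem_nhds y2))⟩

theorem result (h1 : ∃ L : Set ℝ, #L = 𝔠 ∧ ∀ M, IsMeagre M → (L ∩ M).Countable)
    (h2 : (𝔠 : Cardinal.{0}) = ℵ_ ω₁) : covM.IsSingular ∧ ∃ X : Set ℝ, Luzin covM X ∧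
      ∃ (ι : Type) (M : ι → Set ℝ), #ι < covM ∧ (∀ i, IsMeagre (M i)) ∧ X = ⋃ i, M i := by
  obtain ⟨L, l1, l2⟩ := h1
  have h3 : covM = 𝔠 := le_antisymm ((csInf_le' ?_).trans (mk_range_le (f := (singleton :
    ℝ → Set ℝ)).trans mk_real.le)) (le_csInf cov_ne ?_)
  rotate_left
  · refine ⟨_, ?_, by simp [iUnion_of_singleton], rfl⟩
    rintro _ ⟨x, rfl⟩
    exact cm (countable_singleton x)
  · rintro _ ⟨F, f1, f2, rfl⟩
    refine not_lt.1 fun h => (mk_biUnion_le (L ∩ ·) F).not_gt ?_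
    rw [← inter_iUnion₂, ← sUnion_eq_biUnion, f2, inter_univ, l1]
    exact mul_lt_of_lt aleph0_le_continuum h (lt_of_le_of_lt (ciSup_le' fun M =>
      le_aleph0_iff_set_countable.2 (l2 _ (f1 _ M.2))) aleph0_lt_continuum)
  rw [h3]
  obtain ⟨h, g1, g2, g3⟩ := hh
  obtain ⟨ι, i1, i2⟩ := le_mk_iff_exists_subset.1 (l1 ▸ (c1 h2).le)
  obtain ⟨A, a1, a2⟩ := bk h2 i2 l1 (fun l y => l + h y) fun l =>
    (add_right_injective _).comp (g1.comp Subtype.val_injective)
  refine ⟨⟨aleph0_le_continuum, by rw [c2 h2]; exact (c1 h2).ne⟩, _, ⟨a1, fun M hM => ?_⟩, ι, _,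
    i2 ▸ c1 h2, fun l => (g3 l).mono (image_subset_iff.2 fun y _ => mem_range_self y.1), rfl⟩
  have h4 := (l2 _ (show IsMeagre {l | ¬ IsMeagre {y | l + h y ∈ M}} from
    mem_of_superset (ku' g2 hM) fun _ h h' => h' h)).preimage_of_injOn (f := ((↑) : ι → ℝ))
      Subtype.val_injective.injOn
  refine lt_of_le_of_lt (mk_le_mk_of_subset (t := _ ∪ ⋃ l : ι, (fun y => l + h y) '' (L ∩
    {y | IsMeagre {y | l + h y ∈ M} ∧ l + h y ∈ M})) ?_) ((mk_union_le _ _).trans_lt
      (add_lt_of_lt aleph0_le_continuum (a2 _ h4) ((mk_iUnion_le _).trans_lt (mul_lt_of_lt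
        aleph0_le_continuum (i2 ▸ c1 h2) (lt_of_le_of_lt (ciSup_le' fun l => mk_image_le.trans
          (le_aleph0_iff_set_countable.2 (l2 _ ?_))) aleph0_lt_continuum)))))
  · rintro _ ⟨h5, h6⟩
    obtain ⟨l, y, hy, rfl⟩ := mem_iUnion.1 h5
    by_cases h7 : IsMeagre {y | l + h y ∈ M}
    · exact Or.inr (mem_iUnion.2 ⟨l, y, ⟨y.2, h7, h6⟩, rfl⟩)
    · exact Or.inl (mem_biUnion ⟨i1 l.2, h7⟩ ⟨y, hy, rfl⟩)
  · by_cases h7 : IsMeagre {y | l + h y ∈ M}
    · exact h7.mono fun _ h => h.2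
    · exact IsMeagre.empty.mono fun _ h => h7 h.1

end Pool.Agent.Results.MP_54b694_lc.Cohen
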